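import Pool.Agent.Helper8_HK.Stmt3

/-!
# KIW: invariance of the residue under the Iwahori group (squad HK, MP_574a97_nt)
-/

namespace Pool.Agent.HK.H75

open Polynomial Filter

/-- nice with residue zero -/
def Zr (F : Type) [Field F] [Fintype F] {C : Type} [NormedField C] (ρ : C) (h : C → C) : Prop :=
  Nice ρ h ∧ res F ρ h = 0

section

variable {F : Type} [Field F] [Fintype F] {C : Type} [NormedField C]
  [IsAlgClosed C] [CompleteSpace C] [IsUltrametricDist C] {ι : Kinf F →+* C} {ρ : C}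

theorem Zr.add (hR : RESStmt) (hC : Ctx ι ρ) {h h' : C → C} (h1 : Zr F ρ h) (h2 : Zr F ρ h') :
    Zr F ρ (fun z => h z + h' z) := by
  obtain ⟨-, ra, -⟩ := hR F C ι ρ hC
  obtain ⟨a1, a2⟩ := ra h h' h1.1 h2.1
  exact ⟨a1, by rw [a2, h1.2, h2.2, add_zero]⟩

theorem Zr.mul (hR : RESStmt) (hC : Ctx ι ρ) (c : C) {h : C → C} (h1 : Zr F ρ h) :
    Zr F ρ (fun z => c * h z) := by
  obtain ⟨-, -, rm, -⟩ := hR F C ι ρ hC
  obtain ⟨a1, a2⟩ := rm c h h1.1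
  exact ⟨a1, by rw [a2, h1.2, mul_zero]⟩

theorem Zr.congr (hR : RESStmt) (hC : Ctx ι ρ) {h h' : C → C} (h1 : Zr F ρ h)
    (e : ∀ z, ‖z‖ = ‖ρ‖ → h z = h' z) : Zr F ρ h' := by
  obtain ⟨-, -, -, rc, -⟩ := hR F C ι ρ hC
  obtain ⟨a1, a2⟩ := rc h h' e
  exact ⟨a1 h1.1, by rw [← a2, h1.2]⟩

theorem ne_of_circle {p z : C} (hp : ‖p‖ ≠ ‖ρ‖) (hz : ‖z‖ = ‖ρ‖) : z - p ≠ 0 := by
  intro h
  rw [sub_eq_zero] at h
  exact hp (by rw [← h, hz])

theorem elm_pow (T : Set C) (j : ℕ) : (fun z : C => z ^ j) ∈ Elm T :=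
  Submodule.subset_span (Or.inl ⟨j, rfl⟩)

theorem elm_inv (T : Set C) {a : C} (ha : a ∈ T) (j : ℕ) :
    (fun z : C => ((z - a) ^ (j + 1))⁻¹) ∈ Elm T :=
  Submodule.subset_span (Or.inr ⟨a, ha, j, rfl⟩)

theorem zr_A (hR : RESStmt) (hC : Ctx ι ρ) {p : C} (hp : ‖p‖ ≠ ‖ρ‖) (α β : C) :
    ∀ n m : ℕ, n ≤ m → Zr F ρ (fun z => (α * z + β) ^ n * ((z - p) ^ (m + 2))⁻¹) := by
  obtain ⟨-, -, -, -, -, -, re, -, -, -, -, rj⟩ := hR F C ι ρ hC
  intro n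
  induction n with
  | zero =>
    intro m _
    have h1 : Zr F ρ (fun z => ((z - p) ^ (m + 2))⁻¹) := ⟨re _ (elm_inv _ hp (m + 1)), rj p m hp⟩
    refine h1.congr hR hC fun z _ => ?_
    rw [pow_zero, one_mul]
  | succ n ih =>
    intro m hm
    obtain ⟨m', rfl⟩ : ∃ m', m = m' + 1 := ⟨m - 1, by omega⟩
    have h1 := (ih m' (by omega)).mul hR hC α
    have h2 := (ih (m' + 1) (by omega)).mul hR hC (α * p + β)
    refine (h1.add hR hC h2).congr hR hC fun z hz => ?_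
    have h3 := ne_of_circle hp hz
    have e1 : α * z + β = α * (z - p) + (α * p + β) := by ring
    have e2 : ((z - p) ^ (m' + 2))⁻¹ = (z - p) * ((z - p) ^ (m' + 1 + 2))⁻¹ := by
      field_simp
      ring
    rw [e2, pow_succ (α * z + β) n]
    calc α * ((α * z + β) ^ n * ((z - p) * ((z - p) ^ (m' + 1 + 2))⁻¹)) +
          (α * p + β) * ((α * z + β) ^ n * ((z - p) ^ (m' + 1 + 2))⁻¹)
        = (α * z + β) ^ n * (α * (z - p) + (α * p + β)) * ((z - p) ^ (m' + 1 + 2))⁻¹ := by ring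
      _ = _ := by rw [← e1]

theorem zr_B (hR : RESStmt) (hC : Ctx ι ρ) (α β : C) :
    ∀ n i : ℕ, Zr F ρ (fun z => z ^ i * (α * z + β) ^ n) := by
  obtain ⟨-, -, -, -, -, -, re, -, rp, -⟩ := hR F C ι ρ hC
  intro n
  induction n with
  | zero =>
    intro i
    have h1 : Zr F ρ (fun z => z ^ i) := ⟨re _ (elm_pow _ i), rp i⟩
    refine h1.congr hR hC fun z _ => ?_
    rw [pow_zero, mul_one]
  | succ n ih =>
    intro i
    have h1 := (ih (i + 1)).mul hR hC α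
    have h2 := (ih i).mul hR hC β
    refine (h1.add hR hC h2).congr hR hC fun z hz => ?_
    ring

theorem zr_lin (hR : RESStmt) (hC : Ctx ι ρ) {A B : C} (hA : A ≠ 0) (hp : ‖-B / A‖ ≠ ‖ρ‖) (α β : C)
    (j : ℕ) : Zr F ρ (fun z => (α * z + β) ^ j * ((A * z + B) ^ (j + 2))⁻¹) := by
  have h1 := (zr_A hR hC hp α β j j le_rfl).mul hR hC ((A ^ (j + 2))⁻¹)
  refine h1.congr hR hC fun z _ => ?_
  have e : A * z + B = A * (z - -B / A) := by
    field_simp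
    ring
  rw [e, mul_pow, mul_inv]
  ring

/-- the main case -/
theorem basis_case (hR : RESStmt) (hN : NICStmt) (hC : Ctx ι ρ) {k : GLK F}
    (hk1 : ‖ι (k 0 0)‖ = 1) (hk2 : ‖ι (k 0 1)‖ ≤ 1)
    (hk3 : ‖ι (k 1 0)‖ ≤ (((Fintype.card F : ℕ) : ℝ))⁻¹) (hk4 : ‖ι (k 1 1)‖ = 1)
    (e : C → C) (he : e ∈ Elm {a : C | ‖a‖ ≠ ‖ρ‖}) :
    Nice ρ (slash ι k e) ∧ res F ρ (slash ι k e) = res F ρ e := by
  obtain ⟨-, ra, rm, rc, -, -, re, -, rp, r1, r0, rj⟩ := hR F C ι ρ hC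
  obtain ⟨n1, n2, n3, -⟩ := hN F C ι ρ hC
  have hq0 : (0 : ℝ) < ((Fintype.card F : ℕ) : ℝ) := by linarith
  -- the cocycle does not vanish on the circle
  have hcz : ∀ z : C, ‖z‖ = ‖ρ‖ → ι (k 1 0) * z + ι (k 1 1) ≠ 0 := by
    intro z hz h
    have h1 : ‖ι (k 1 0) * z‖ < 1 := by
      rw [norm_mul, hz]
      calc ‖ι (k 1 0)‖ * ‖ρ‖ ≤ (((Fintype.card F : ℕ) : ℝ))⁻¹ * ‖ρ‖ :=
            mul_le_mul_of_nonneg_right hk3 (norm_nonneg _)
        _ < (((Fintype.card F : ℕ) : ℝ))⁻¹ * ((Fintype.card F : ℕ) : ℝ) :=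
            mul_lt_mul_of_pos_left n2 (inv_pos.2 hq0)
        _ = 1 := inv_mul_cancel₀ hq0.ne'
    have h2 : ι (k 1 1) = - (ι (k 1 0) * z) := by linear_combination h
    rw [h2, norm_neg] at hk4
    linarith
  generalize hα : ι (k 0 0) = α at *
  generalize hβ : ι (k 0 1) = β at *
  generalize hγ : ι (k 1 0) = γ at *
  generalize hδ : ι (k 1 1) = δ at *
  have hsl : ∀ (f : C → C) (z : C), slash ι k f z = (α * δ - β * γ) * ((γ * z + δ) ^ 2)⁻¹ *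
      f ((α * z + β) / (γ * z + δ)) := by
    intro f z
    simp only [slash, map_sub, map_mul, hα, hβ, hγ, hδ]
  have hq1 : (((Fintype.card F : ℕ) : ℝ))⁻¹ < 1 := inv_lt_one_of_one_lt₀ (by linarith)
  have hD : α * δ - β * γ ≠ 0 := by
    intro h
    have h1 : α * δ = β * γ := by linear_combination h
    have h2 : ‖α * δ‖ = 1 := by rw [norm_mul, hk1, hk4, one_mul]
    have h3 : ‖β * γ‖ ≤ (((Fintype.card F : ℕ) : ℝ))⁻¹ := by
      rw [norm_mul]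
      calc ‖β‖ * ‖γ‖ ≤ 1 * ‖γ‖ := mul_le_mul_of_nonneg_right hk2 (norm_nonneg _)
        _ ≤ _ := by rw [one_mul]; exact hk3
    rw [h1] at h2
    linarith
  have hrq : (((Fintype.card F : ℕ) : ℝ))⁻¹ * ‖ρ‖ < 1 := by
    calc (((Fintype.card F : ℕ) : ℝ))⁻¹ * ‖ρ‖
        < (((Fintype.card F : ℕ) : ℝ))⁻¹ * ((Fintype.card F : ℕ) : ℝ) :=
          mul_lt_mul_of_pos_left n2 (inv_pos.2 hq0)
      _ = 1 := inv_mul_cancel₀ hq0.ne'
  have hp : γ ≠ 0 → ‖ρ‖ < ‖-δ / γ‖ := by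
    intro hg
    have hg0 : 0 < ‖γ‖ := norm_pos_iff.2 hg
    rw [norm_div, norm_neg, hk4, lt_div_iff₀ hg0]
    calc ‖ρ‖ * ‖γ‖ ≤ ‖ρ‖ * (((Fintype.card F : ℕ) : ℝ))⁻¹ :=
          mul_le_mul_of_nonneg_left hk3 (norm_nonneg _)
      _ < 1 := by rw [mul_comm]; exact hrq
  have hzero : Zr F ρ (fun _ => (0 : C)) := by
    have h1 : Zr F ρ (fun z => z ^ 0) := ⟨re _ (elm_pow _ 0), rp 0⟩
    exact (h1.mul hR hC 0).congr hR hC fun z _ => by rw [zero_mul]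
  -- polynomials
  have c1 : ∀ j : ℕ, Zr F ρ (slash ι k (fun z => z ^ j)) := by
    intro j
    by_cases hg : γ = 0
    · have h1 := (zr_B hR hC α β j 0).mul hR hC (α * δ * (δ ^ 2)⁻¹ * (δ ^ j)⁻¹)
      refine h1.congr hR hC fun z _ => ?_
      rw [hsl, hg, pow_zero, one_mul, zero_mul, zero_add, mul_zero, sub_zero, div_pow]
      ring
    · have h1 := (zr_lin hR hC hg (hp hg).ne' α β j).mul hR hC (α * δ - β * γ)
      refine h1.congr hR hC fun z hz => ?_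
      have h2 := hcz z hz
      rw [hsl, div_pow, pow_add, mul_inv]
      ring
  -- the poles
  have c2 : ∀ t : C, ‖t‖ ≠ ‖ρ‖ → ∀ z : C, ‖z‖ = ‖ρ‖ → (α - t * γ) * z + (β - t * δ) ≠ 0 := by
    intro t ht z hz h
    have h1 : α * z + β = t * (γ * z + δ) := by linear_combination h
    have h2 : ‖γ * z‖ < 1 := by
      rw [norm_mul, hz]
      exact lt_of_le_of_lt (mul_le_mul_of_nonneg_right hk3 (norm_nonneg _)) hrq
    have h3 : ‖γ * z + δ‖ = 1 := by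
      rw [IsUltrametricDist.norm_add_eq_max_of_norm_ne_norm (by rw [hk4]; exact h2.ne), hk4,
        max_eq_right h2.le]
    have h4 : ‖α * z + β‖ = ‖ρ‖ := by
      have h5 : ‖α * z‖ = ‖ρ‖ := by rw [norm_mul, hk1, one_mul, hz]
      rw [IsUltrametricDist.norm_add_eq_max_of_norm_ne_norm (by rw [h5]; linarith), h5,
        max_eq_left (by linarith)]
    rw [h1, norm_mul, h3, mul_one] at h4
    exact ht h4
  have c3 : ∀ t : C, ‖t‖ < ‖ρ‖ → α - t * γ ≠ 0 ∧ ‖-(β - t * δ) / (α - t * γ)‖ < ‖ρ‖ := by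
    intro t ht
    have h1 : ‖t * γ‖ < 1 := by
      rw [norm_mul]
      calc ‖t‖ * ‖γ‖ ≤ ‖ρ‖ * (((Fintype.card F : ℕ) : ℝ))⁻¹ :=
            mul_le_mul ht.le hk3 (norm_nonneg _) (norm_nonneg _)
        _ < 1 := by rw [mul_comm]; exact hrq
    have h2 : ‖α - t * γ‖ = 1 := by
      rw [sub_eq_add_neg, IsUltrametricDist.norm_add_eq_max_of_norm_ne_norm
        (by rw [norm_neg, hk1]; exact h1.ne'), norm_neg, hk1, max_eq_left h1.le]
    refine ⟨fun h => by rw [h, norm_zero] at h2; exact zero_ne_one h2, ?_⟩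
    rw [norm_div, h2, div_one, norm_neg, sub_eq_add_neg]
    refine lt_of_le_of_lt (IsUltrametricDist.norm_add_le_max _ _) ?_
    rw [norm_neg, norm_mul, hk4, mul_one]
    exact max_lt (by linarith) ht
  have c4 : ∀ t : C, ‖ρ‖ < ‖t‖ → α - t * γ ≠ 0 → ‖ρ‖ < ‖-(β - t * δ) / (α - t * γ)‖ := by
    intro t ht hA
    have h1 : ‖β - t * δ‖ = ‖t‖ := by
      have h5 : ‖t * δ‖ = ‖t‖ := by rw [norm_mul, hk4, mul_one]
      rw [sub_eq_add_neg, IsUltrametricDist.norm_add_eq_max_of_norm_ne_norm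
        (by rw [norm_neg, h5]; linarith), norm_neg, h5, max_eq_right (by linarith)]
    have hA0 : 0 < ‖α - t * γ‖ := norm_pos_iff.2 hA
    rw [norm_div, norm_neg, h1, lt_div_iff₀ hA0]
    have h2 : ‖α - t * γ‖ ≤ max ‖α‖ ‖t * γ‖ := by
      rw [sub_eq_add_neg]
      refine (IsUltrametricDist.norm_add_le_max _ _).trans ?_
      rw [norm_neg]
    rw [hk1] at h2
    have hρ0 : 0 < ‖ρ‖ := by linarith
    rcases le_max_iff.1 h2 with h3 | h3
    · calc ‖ρ‖ * ‖α - t * γ‖ ≤ ‖ρ‖ * 1 := mul_le_mul_of_nonneg_left h3 hρ0.le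
        _ = ‖ρ‖ := mul_one _
        _ < ‖t‖ := ht
    · have ht0 : 0 < ‖t‖ := hρ0.trans ht
      calc ‖ρ‖ * ‖α - t * γ‖ ≤ ‖ρ‖ * ‖t * γ‖ := mul_le_mul_of_nonneg_left h3 hρ0.le
        _ = ‖t‖ * (‖γ‖ * ‖ρ‖) := by rw [norm_mul]; ring
        _ ≤ ‖t‖ * ((((Fintype.card F : ℕ) : ℝ))⁻¹ * ‖ρ‖) :=
            mul_le_mul_of_nonneg_left (mul_le_mul_of_nonneg_right hk3 hρ0.le) ht0.le
        _ < ‖t‖ * 1 := mul_lt_mul_of_pos_left hrq ht0
        _ = ‖t‖ := mul_one _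
  have c5 : ∀ t : C, ‖t‖ ≠ ‖ρ‖ → α - t * γ ≠ 0 → ‖-(β - t * δ) / (α - t * γ)‖ ≠ ‖ρ‖ := by
    intro t ht hA
    rcases lt_or_gt_of_ne ht with h | h
    · exact (c3 t h).2.ne
    · exact (c4 t h hA).ne'
  -- simple poles
  have d1 : ∀ (A B : C), A ≠ 0 → ‖-B / A‖ ≠ ‖ρ‖ → Nice ρ (fun z => A * (A * z + B)⁻¹) ∧
      res F ρ (fun z => A * (A * z + B)⁻¹) = res F ρ (fun z => (z - -B / A)⁻¹) := by
    intro A B hA hz0
    have h1 : Nice ρ (fun z => (z - -B / A)⁻¹) := by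
      have h2 := re _ (elm_inv _ (a := -B / A) hz0 0)
      simpa using h2
    have h2 : ∀ z, ‖z‖ = ‖ρ‖ → (z - -B / A)⁻¹ = A * (A * z + B)⁻¹ := by
      intro z _
      have e : A * z + B = A * (z - -B / A) := by
        field_simp
        ring
      rw [e, mul_inv, ← mul_assoc, mul_inv_cancel₀ hA, one_mul]
    obtain ⟨h3, h4⟩ := rc _ _ h2
    exact ⟨h3 h1, h4.symm⟩
  have c6 : ∀ t : C, ‖t‖ ≠ ‖ρ‖ → Nice ρ (slash ι k (fun z => (z - t)⁻¹)) ∧
      res F ρ (slash ι k (fun z => (z - t)⁻¹)) = res F ρ (fun z => (z - t)⁻¹) := by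
    intro t ht
    have hg : Zr F ρ (fun z => -1 * (γ * (γ * z + δ)⁻¹)) := by
      by_cases hg : γ = 0
      · refine hzero.congr hR hC fun z _ => ?_
        rw [hg]; ring
      · obtain ⟨h1, h2⟩ := d1 γ δ hg (hp hg).ne'
        exact Zr.mul hR hC _ ⟨h1, by rw [h2, r0 _ (hp hg)]⟩
    have hA : Nice ρ (fun z => (α - t * γ) * ((α - t * γ) * z + (β - t * δ))⁻¹) ∧
        res F ρ (fun z => (α - t * γ) * ((α - t * γ) * z + (β - t * δ))⁻¹) =
          res F ρ (fun z => (z - t)⁻¹) := by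
      by_cases hA : α - t * γ = 0
      · have h1 : ‖ρ‖ < ‖t‖ := by
          rcases lt_or_gt_of_ne ht with h | h
          · exact absurd hA (c3 t h).1
          · exact h
        obtain ⟨h3, h4⟩ := hzero.congr hR hC
          (h' := fun z => (α - t * γ) * ((α - t * γ) * z + (β - t * δ))⁻¹)
          (fun z _ => by rw [hA, zero_mul])
        exact ⟨h3, by rw [h4, r0 t h1]⟩
      · obtain ⟨h1, h2⟩ := d1 _ (β - t * δ) hA (c5 t ht hA)
        refine ⟨h1, ?_⟩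
        rw [h2]
        rcases lt_or_gt_of_ne ht with h | h
        · rw [r1 _ (c3 t h).2, r1 t h]
        · rw [r0 _ (c4 t h hA), r0 t h]
    obtain ⟨h1, h2⟩ := ra _ _ hA.1 hg.1
    obtain ⟨h3, h4⟩ := rc _ (slash ι k (fun z => (z - t)⁻¹)) (fun z hz => by
      have e1 := hcz z hz
      have e2 := c2 t ht z hz
      change (α - t * γ) * ((α - t * γ) * z + (β - t * δ))⁻¹ + -1 * (γ * (γ * z + δ)⁻¹) = _
      rw [hsl]
      have e3 : (α * z + β) / (γ * z + δ) - t =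
          ((α - t * γ) * z + (β - t * δ)) / (γ * z + δ) := by
        rw [eq_div_iff e1, sub_mul, div_mul_cancel₀ _ e1]
        ring
      rw [e3]
      field_simp
      ring)
    refine ⟨h3 h1, ?_⟩
    rw [← h4, h2, hA.2, hg.2, add_zero]
  have c7 : ∀ (t : C) (j : ℕ), ‖t‖ ≠ ‖ρ‖ → Zr F ρ (slash ι k (fun z => ((z - t) ^ (j + 2))⁻¹)) := by
    intro t j ht
    have h0 : Zr F ρ (fun z => (α * δ - β * γ) * ((γ * z + δ) ^ j *
        (((α - t * γ) * z + (β - t * δ)) ^ (j + 2))⁻¹)) := by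
      by_cases hA : α - t * γ = 0
      · have h1 := (zr_B hR hC γ δ j 0).mul hR hC ((α * δ - β * γ) * ((β - t * δ) ^ (j + 2))⁻¹)
        refine h1.congr hR hC fun z _ => ?_
        rw [hA, pow_zero, one_mul, zero_mul, zero_add]
        ring
      · exact (zr_lin hR hC hA (c5 t ht hA) γ δ j).mul hR hC _
    refine h0.congr hR hC fun z hz => ?_
    have e1 := hcz z hz
    have e2 := c2 t ht z hz
    rw [hsl]
    have e3 : (α * z + β) / (γ * z + δ) - t =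
        ((α - t * γ) * z + (β - t * δ)) / (γ * z + δ) := by
      rw [eq_div_iff e1, sub_mul, div_mul_cancel₀ _ e1]
      ring
    rw [e3, div_pow, inv_div, pow_add (γ * z + δ)]
    field_simp
  refine Submodule.span_induction (p := fun e _ => Nice ρ (slash ι k e) ∧
    res F ρ (slash ι k e) = res F ρ e) ?_ ?_ ?_ ?_ he
  · rintro f (⟨j, rfl⟩ | ⟨t, ht, j, rfl⟩)
    · exact ⟨(c1 j).1, by rw [(c1 j).2, rp j]⟩
    · rcases j with _ | j
      · have h1 : (fun z : C => ((z - t) ^ (0 + 1))⁻¹) = fun z => (z - t)⁻¹ := by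
          funext z; rw [zero_add, pow_one]
        rw [h1]
        exact c6 t ht
      · exact ⟨(c7 t j ht).1, by rw [(c7 t j ht).2]; exact (rj t j ht).symm⟩
  · have h1 : slash ι k (0 : C → C) = 0 := by funext z; simp [slash]
    rw [h1]
    exact ⟨hzero.1, rfl⟩
  · intro x y hx hy ⟨h1, h2⟩ ⟨h3, h4⟩
    rw [slash_add]
    obtain ⟨a1, a2⟩ := ra _ _ h1 h3
    obtain ⟨-, a4⟩ := ra _ _ (re _ hx) (re _ hy)
    exact ⟨a1, by
      change res F ρ (fun z => slash ι k x z + slash ι k y z) = res F ρ (fun z => x z + y z)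
      rw [a2, a4, h2, h4]⟩
  · intro c x hx ⟨h1, h2⟩
    rw [slash_smul]
    obtain ⟨a1, a2⟩ := rm c _ h1
    obtain ⟨-, a4⟩ := rm c _ (re _ hx)
    exact ⟨a1, by
      change res F ρ (fun z => c * slash ι k x z) = res F ρ (fun z => c * x z)
      rw [a2, a4, h2]⟩

/-- the norms of the entries -/
theorem norms (hI : IMAStmt) (hC : Ctx ι ρ) {k : GLK F} (hk : k ∈ Iwahori) :
    ‖ι (k 0 0)‖ = 1 ∧ ‖ι (k 0 1)‖ ≤ 1 ∧ ‖ι (k 1 0)‖ ≤ (((Fintype.card F : ℕ) : ℝ))⁻¹ ∧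
    ‖ι (k 1 1)‖ = 1 := by
  obtain ⟨k1, k2, k3, k4, k5, k6⟩ := hk
  obtain ⟨-, i1, i2, -⟩ := hI F C ι hC.ok
  refine ⟨?_, ?_, ?_, ?_⟩
  · rw [i2 _ _ k1 k5]; simp
  · have := i1 _ _ k2; simpa using this
  · have := i1 _ _ k3; simpa using this
  · rw [i2 _ _ k4 k6]; simp

theorem res_close (hR : RESStmt) (hC : Ctx ι ρ) {h h' : C → C} (h1 : Nice ρ h) (h2 : Nice ρ h')
    {ε : ℝ} (hε : 0 ≤ ε) (hh : ∀ z, ‖z‖ = ‖ρ‖ → ‖h z - h' z‖ ≤ ε) :
    ‖res F ρ h - res F ρ h'‖ ≤ ‖ρ‖ * ε := by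
  obtain ⟨-, ra, rm, -, rb, -⟩ := hR F C ι ρ hC
  obtain ⟨a1, a2⟩ := rm (-1) h' h2
  obtain ⟨b1, b2⟩ := ra h _ h1 a1
  have h3 := rb _ ε b1 hε (fun z hz => by
    have e : h z + -1 * h' z = h z - h' z := by ring
    rw [e]
    exact hh z hz)
  rw [b2, a2] at h3
  have e : res F ρ h + -1 * res F ρ h' = res F ρ h - res F ρ h' := by ring
  rwa [e] at h3

theorem kiw (hR : RESStmt) (hN : NICStmt) (hH : HOLStmt) (_hM : IMMStmt) (_hE : ELMStmt)
    (hI : IMAStmt) : KIWStmt := by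
  intro F _ _ C _ _ _ _ ι ρ hC f hf k hk
  obtain ⟨k1, k2, k3, k4⟩ := norms hI hC hk
  obtain ⟨n1, n2, n3, -, -, n6⟩ := hN F C ι ρ hC
  have hNf := n6 f hf
  have hNs := n6 _ ((hH F C ι hC.ok f hf).1 k)
  have hq0 : (0 : ℝ) < ((Fintype.card F : ℕ) : ℝ) := by linarith
  have hρ0 : 0 < ‖ρ‖ := by linarith
  by_contra hne
  have hpos : 0 < ‖res F ρ (slash ι k f) - res F ρ f‖ := norm_pos_iff.2 (sub_ne_zero.2 hne)
  obtain ⟨e, he, hfe⟩ := hNf (‖res F ρ (slash ι k f) - res F ρ f‖ / (4 * ‖ρ‖)) (by positivity)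
  obtain ⟨b1, b2⟩ := basis_case hR hN hC k1 k2 k3 k4 e he
  have hNe : Nice ρ e := by
    obtain ⟨-, -, -, -, -, -, re, -⟩ := hR F C ι ρ hC
    exact re e he
  have h1 := res_close hR hC hNf hNe (by positivity) hfe
  have h2 : ‖res F ρ (slash ι k f) - res F ρ (slash ι k e)‖ ≤
      ‖ρ‖ * (‖res F ρ (slash ι k f) - res F ρ f‖ / (4 * ‖ρ‖)) := by
    refine res_close hR hC hNs b1 (by positivity) fun z hz => ?_
    have hrq : (((Fintype.card F : ℕ) : ℝ))⁻¹ * ‖ρ‖ < 1 := by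
      calc (((Fintype.card F : ℕ) : ℝ))⁻¹ * ‖ρ‖
          < (((Fintype.card F : ℕ) : ℝ))⁻¹ * ((Fintype.card F : ℕ) : ℝ) :=
            mul_lt_mul_of_pos_left n2 (inv_pos.2 hq0)
        _ = 1 := inv_mul_cancel₀ hq0.ne'
    have e1 : ‖ι (k 1 0) * z + ι (k 1 1)‖ = 1 := by
      have h2 : ‖ι (k 1 0) * z‖ < 1 := by
        rw [norm_mul, hz]
        exact lt_of_le_of_lt (mul_le_mul_of_nonneg_right k3 (norm_nonneg _)) hrq
      rw [IsUltrametricDist.norm_add_eq_max_of_norm_ne_norm (by rw [k4]; exact h2.ne), k4,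
        max_eq_right h2.le]
    have e2 : ‖ι (k 0 0) * z + ι (k 0 1)‖ = ‖ρ‖ := by
      have h5 : ‖ι (k 0 0) * z‖ = ‖ρ‖ := by rw [norm_mul, k1, one_mul, hz]
      rw [IsUltrametricDist.norm_add_eq_max_of_norm_ne_norm (by rw [h5]; linarith), h5,
        max_eq_left (by linarith)]
    have e3 : ‖ι (k 0 0 * k 1 1 - k 0 1 * k 1 0)‖ ≤ 1 := by
      rw [map_sub, map_mul, map_mul, sub_eq_add_neg]
      refine (IsUltrametricDist.norm_add_le_max _ _).trans (max_le ?_ ?_)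
      · rw [norm_mul, k1, k4, one_mul]
      · rw [norm_neg, norm_mul]
        calc ‖ι (k 0 1)‖ * ‖ι (k 1 0)‖ ≤ 1 * (((Fintype.card F : ℕ) : ℝ))⁻¹ :=
              mul_le_mul k2 k3 (norm_nonneg _) zero_le_one
          _ ≤ 1 := by
            rw [one_mul]
            exact (inv_lt_one_of_one_lt₀ (by linarith)).le
    have e4 : slash ι k f z - slash ι k e z = ι (k 0 0 * k 1 1 - k 0 1 * k 1 0) *
        ((ι (k 1 0) * z + ι (k 1 1)) ^ 2)⁻¹ *
        (f ((ι (k 0 0) * z + ι (k 0 1)) / (ι (k 1 0) * z + ι (k 1 1))) -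
          e ((ι (k 0 0) * z + ι (k 0 1)) / (ι (k 1 0) * z + ι (k 1 1)))) := by
      simp only [slash]
      ring
    rw [e4, norm_mul, norm_mul, norm_inv, norm_pow, e1, one_pow, inv_one, mul_one]
    have e5 := hfe ((ι (k 0 0) * z + ι (k 0 1)) / (ι (k 1 0) * z + ι (k 1 1)))
      (by rw [norm_div, e1, e2, div_one])
    calc _ ≤ 1 * (‖res F ρ (slash ι k f) - res F ρ f‖ / (4 * ‖ρ‖)) :=
          mul_le_mul e3 e5 (norm_nonneg _) zero_le_one
      _ = _ := one_mul _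
  rw [b2] at h2
  have h3 : ‖res F ρ (slash ι k f) - res F ρ f‖ ≤
      ‖res F ρ (slash ι k f) - res F ρ e‖ + ‖res F ρ f - res F ρ e‖ := by
    have e : res F ρ (slash ι k f) - res F ρ f =
      (res F ρ (slash ι k f) - res F ρ e) - (res F ρ f - res F ρ e) := by ring
    calc ‖res F ρ (slash ι k f) - res F ρ f‖ = _ := by rw [e]
      _ ≤ _ := norm_sub_le _ _
  have h4 : ‖ρ‖ * (‖res F ρ (slash ι k f) - res F ρ f‖ / (4 * ‖ρ‖)) =
      ‖res F ρ (slash ι k f) - res F ρ f‖ / 4 := by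
    field_simp
  rw [h4] at h1 h2
  linarith

end

end Pool.Agent.HK.H75
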